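import Pool.Agent.H75.GG.Targets2

/-! # Row DG2: the sequences of parameters -/

set_option autoImplicit false

namespace Pool.Agent.H5.GG

open Finset Filter Pool.Agent.H6.NB Pool.Agent.H70.OQ Pool.Agent.H75.GS Pool.Agent.H75.GG

lemma prs_mono {K r r₂ n a₀ a : ℕ} {h g : ℕ → ℕ → ℕ} {C : ℕ → ℕ} {ε : ℕ → ℝ} (hr : r₂ ≤ r)
    (H : Prs K r n a₀ a h g C ε) : Prs K r₂ n a₀ a h g C ε where
  n64 := H.n64
  a1 := H.a1
  aa := H.aa
  len := H.len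
  H1 := H.H1
  H2 := H.H2
  prm := H.prm
  hh := fun i hi => le_trans (by omega) (H.hh i (hi.trans_le hr))
  sp := fun i hi => H.sp i (hi.trans_le hr)
  gg := fun j hj => H.gg j (hj.trans_le hr)
  cd := (Nat.mul_le_mul_right _ (Nat.pow_le_pow_left hr 3)).trans H.cd

theorem pf_DG2 (hDG1 : T_DG1) (hDGL : T_DGL) : T_DG2 := by
  intro K h g C ε hε hgc
  obtain ⟨c₁, hc₁, hP⟩ := hDGL
    (fun j n => ∃ a₀ a, Prs ((range (j + 1)).sup K) j n a₀ a h g C ε)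
    fun j => hDG1 _ j h g C ε hε hgc
  obtain ⟨n₀, hn₀⟩ := (tendsto_atTop.1 hc₁ 1).exists_forall_of_atTop
  have hjj : Tendsto (fun n => c₁ n - 1) atTop atTop := (tendsto_sub_atTop_nat 1).comp hc₁
  have hex : ∀ n, ∃ a₀ a, n₀ ≤ n →
      Prs ((range (c₁ n - 1 + 1)).sup K) (c₁ n - 1) n a₀ a h g C ε := by
    intro n
    by_cases hn : n₀ ≤ n
    · obtain ⟨a₀, a, H⟩ := hP n (c₁ n - 1) (by have := hn₀ n hn; omega)
      exact ⟨a₀, a, fun _ => H⟩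
    · exact ⟨0, 0, fun h => absurd h hn⟩
  choose a₀ aa haa using hex
  obtain ⟨e₁, he₁, hQ⟩ := hDGL (fun j l => ∀ n ≥ n₀, l < n ^ 2 ^ aa n → j ≤ c₁ n - 1) (by
    intro j
    obtain ⟨N, hN⟩ := (tendsto_atTop.1 hjj j).exists_forall_of_atTop
    refine eventually_atTop.2 ⟨(range N).sup fun n => n ^ 2 ^ aa n, fun l hl n _ hln => ?_⟩
    by_contra hlt
    have h1 : n < N := by
      by_contra h2
      exact hlt (hN n (not_lt.1 h2))
    have h2 : n ^ 2 ^ aa n ≤ (range N).sup fun n => n ^ 2 ^ aa n :=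
      Finset.le_sup (f := fun n => n ^ 2 ^ aa n) (mem_range.2 h1)
    omega)
  have hee : Tendsto (fun l => e₁ l - 1) atTop atTop := (tendsto_sub_atTop_nat 1).comp he₁
  have hel : ∀ n ≥ n₀, ∀ l < n ^ 2 ^ aa n, e₁ l - 1 ≤ c₁ n - 1 := by
    intro n hn l hl
    by_cases h0 : e₁ l = 0
    · omega
    · exact hQ l (e₁ l - 1) (by omega) n hn hl
  obtain ⟨c₂, hc₂, hR⟩ := hDGL
    (fun j n => (∀ l, n ^ 2 ≤ l → j ≤ e₁ l - 1) ∧ j ≤ c₁ n - 1) (by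
    intro j
    obtain ⟨L, hL⟩ := (tendsto_atTop.1 hee j).exists_forall_of_atTop
    filter_upwards [eventually_ge_atTop L, tendsto_atTop.1 hjj j] with n hn hn2
    refine ⟨fun l hl => hL l (hn.trans (le_trans ?_ hl)), hn2⟩
    nlinarith [Nat.zero_le n, Nat.le_self_pow (two_ne_zero) n])
  have hcc : ∀ n, (∀ l, n ^ 2 ≤ l → c₂ n - 1 ≤ e₁ l - 1) ∧ c₂ n - 1 ≤ c₁ n - 1 := by
    intro n
    by_cases h0 : c₂ n = 0
    · exact ⟨fun l _ => by omega, by omega⟩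
    · exact hR n (c₂ n - 1) (by omega)
  refine ⟨n₀, a₀, aa, fun n => c₂ n - 1, fun l => e₁ l - 1,
    fun n => (range (c₁ n - 1 + 1)).sup K, (tendsto_sub_atTop_nat 1).comp hc₂, hee,
    fun n hn => ⟨prs_mono (hcc n).2 (haa n hn), fun l hl => ?_, (hcc n).1⟩⟩
  exact Finset.le_sup (f := K) (mem_range.2 (Nat.lt_succ_of_le (hel n hn l hl)))

end Pool.Agent.H5.GG
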